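import Pool.Agent.Y634.TmMain
import Pool.Agent.H679R2.M1.Main

/-!
# Circuits with real, span and program gates, and reductions computed by them
-/

set_option autoImplicit false

namespace Pool.Agent.T6.H87.M1

open Finset
open Pool.Agent.Y634 (SpanGate ProgramGate)

/-- A gate of a circuit with inputs `P` and with `s` gates: the number of its wires, their sources
(an input or a gate), and the real function that it computes. The numbers `level` are only used if
the gate reads its wires digitally. -/
structure Gate (P : Type) (s : ℕ) where
  wires : ℕ
  source : Fin wires → P ⊕ Fin s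
  op : (Fin wires → ℝ) → ℝ
  level : Fin wires → ℝ

/-- The gate reads its wires digitally: its value depends only on the bits which say, for each wire,
whether the value on the wire is at least the level of the wire. -/
def Gate.Digital {P : Type} {s : ℕ} (g : Gate P s) : Prop :=
  ∀ z z' : Fin g.wires → ℝ, (∀ j, g.level j ≤ z j ↔ g.level j ≤ z' j) → g.op z = g.op z'

/-- A circuit with inputs `P`. Its gates are numbered; the sources of the wires of a gate are inputs
or earlier gates. The gates in `free` are arbitrary gates which read their wires digitally. On the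
input `x` the value of gate `i` is `val x i`; the value of an input bit is `0` or `1`. -/
structure Circuit (P : Type) where
  s : ℕ
  gate : Fin s → Gate P s
  free : Finset (Fin s)
  val : (P → Bool) → Fin s → ℝ
  earlier : ∀ i j k, (gate i).source j = Sum.inr k → k < i
  digital : ∀ i ∈ free, (gate i).Digital
  spec : ∀ x i, val x i = (gate i).op
    (fun j => Sum.elim (fun p => if x p = true then (1 : ℝ) else 0) (val x) ((gate i).source j))

/-- The number of gates plus the number of wires into free gates. -/
def Circuit.size {P : Type} (C : Circuit P) : ℕ := C.s + ∑ i ∈ C.free, (C.gate i).wires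

/-- The product of the numbers `w + 1` over all free gates, where `w` is the number of wires. -/
def Circuit.freedom {P : Type} (C : Circuit P) : ℕ := ∏ i ∈ C.free, ((C.gate i).wires + 1)

/-- All gates which are not free are monotone real functions of at most `b` numbers, or span gates
with `m` rows, or program gates with `m` rows and `m` blocks of `D` variables, with tolerance
`1 / m`. -/
def Circuit.Uses {P : Type} (C : Circuit P) (b m D : ℕ) : Prop :=
  ∀ i, i ∉ C.free → ((C.gate i).wires ≤ b ∧ Monotone (C.gate i).op) ∨
    SpanGate m (C.gate i).op ∨ ProgramGate m D (1 / m) (C.gate i).op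

/-- An output bit of a circuit: it tells whether the value of the gate is at least the level, and it
is negated if `neg` is true. -/
structure Output {P : Type} (C : Circuit P) where
  gate : Fin C.s
  level : ℝ
  neg : Bool

open Classical in
/-- The value of the output bit. -/
noncomputable def Output.bit {P : Type} {C : Circuit P} (o : Output C) (x : P → Bool) : Bool :=
  xor o.neg (decide (o.level ≤ C.val x o.gate))

/-- The circuit `C` with the output bits `out` reduces the promise problem `(Yes, No)` to the
language `L`. -/
def Reduces {P O : Type} (C : Circuit P) (out : O → Output C) (L : Set (O → Bool))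
    (Yes No : (P → Bool) → Prop) : Prop :=
  ∀ x, (Yes x → (fun o => (out o).bit x) ∈ L) ∧ (No x → (fun o => (out o).bit x) ∉ L)

/-- A lower bound for circuits which decide `(Yes, No)`. -/
def Lower {P : Type} (Yes No : (P → Bool) → Prop) (b m D : ℕ) (S F : ℝ) : Prop :=
  ∀ C : Circuit P, C.Uses b m D → ∀ (o : Fin C.s) (τ : ℝ), (∀ x, Yes x → τ ≤ C.val x o) →
    (∀ x, No x → C.val x o < τ) → (C.size : ℝ) ≤ S → F < (C.freedom : ℝ)

section ext

variable {P O : Type} [Fintype O] (C : Circuit P) (out : O → Output C) (L : Set (O → Bool))

open Classical in
/-- the last gate -/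
noncomputable def lastGate : Gate P (C.s + 1) where
  wires := Fintype.card O
  source := fun j => Sum.inr ((out ((Fintype.equivFin O).symm j)).gate.castSucc)
  op := fun z => if (fun o => xor (out o).neg (decide ((out o).level ≤ z (Fintype.equivFin O o)))) ∈ L
    then 1 else 0
  level := fun j => (out ((Fintype.equivFin O).symm j)).level

/-- a gate of the old circuit -/
def oldGate (i : Fin C.s) : Gate P (C.s + 1) where
  wires := (C.gate i).wires
  source := fun j => Sum.map id Fin.castSucc ((C.gate i).source j)
  op := (C.gate i).op
  level := (C.gate i).level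

/-- the gates of the new circuit -/
noncomputable def newGate : Fin (C.s + 1) → Gate P (C.s + 1) :=
  Fin.snoc (α := fun _ => Gate P (C.s + 1)) (oldGate C) (lastGate C out L)

lemma newGate_last : newGate C out L (Fin.last C.s) = lastGate C out L := by
  unfold newGate
  rw [Fin.snoc_last]

lemma newGate_castSucc (i : Fin C.s) : newGate C out L i.castSucc = oldGate C i := by
  unfold newGate
  rw [Fin.snoc_castSucc]

open Classical in
/-- the circuit with one more gate -/
noncomputable def extend : Circuit P where
  s := C.s + 1
  gate := newGate C out L
  free := insert (Fin.last C.s) (C.free.map Fin.castSuccEmb)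
  val := fun x => Fin.snoc (α := fun _ => ℝ) (C.val x)
    (if (fun o => (out o).bit x) ∈ L then 1 else 0)
  earlier := by
    intro i
    refine Fin.lastCases ?_ (fun i => ?_) i
    · rw [newGate_last]
      intro j k h
      have h1 : Sum.inr ((out ((Fintype.equivFin O).symm j)).gate.castSucc) =
        (Sum.inr k : P ⊕ Fin (C.s + 1)) := h
      rw [← Sum.inr.inj h1]
      exact Fin.castSucc_lt_last _
    · rw [newGate_castSucc]
      intro j k h
      have h1 : Sum.map id Fin.castSucc ((C.gate i).source j) =
        (Sum.inr k : P ⊕ Fin (C.s + 1)) := h
      rcases hs : (C.gate i).source j with p | k'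
      · rw [hs] at h1
        simp at h1
      · rw [hs] at h1
        have h2 : Fin.castSucc k' = k := by simpa using h1
        rw [← h2]
        exact Fin.castSucc_lt_castSucc_iff.2 (C.earlier i j k' hs)
  digital := by
    intro i
    refine Fin.lastCases ?_ (fun i => ?_) i
    · intro _
      rw [newGate_last]
      intro z z' h
      have h1 : ∀ o : O, decide ((out o).level ≤ z (Fintype.equivFin O o)) =
          decide ((out o).level ≤ z' (Fintype.equivFin O o)) := by
        intro o
        have h2 := h (Fintype.equivFin O o)
        simp only [lastGate, Equiv.symm_apply_apply] at h2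
        exact decide_eq_decide.2 h2
      simp only [lastGate]
      simp_rw [h1]
    · intro hi
      rw [newGate_castSucc]
      have h1 : i ∈ C.free := by
        rcases Finset.mem_insert.1 hi with h | h
        · exact absurd h (Fin.castSucc_lt_last i).ne
        · obtain ⟨j, hj, he⟩ := Finset.mem_map.1 h
          have : j = i := Fin.castSucc_injective _ he
          rwa [← this]
      exact C.digital i h1
  spec := by
    intro x i
    refine Fin.lastCases ?_ (fun i => ?_) i
    · rw [newGate_last, Fin.snoc_last]
      simp only [lastGate, Sum.elim_inr, Fin.snoc_castSucc, Equiv.symm_apply_apply]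
      rfl
    · rw [newGate_castSucc, Fin.snoc_castSucc, C.spec x i]
      show (C.gate i).op _ = (C.gate i).op _
      congr 1
      funext j
      show _ = Sum.elim _ _ (Sum.map id Fin.castSucc ((C.gate i).source j))
      rcases (C.gate i).source j with p | k'
      · rfl
      · simp only [Sum.map_inr, Sum.elim_inr, Fin.snoc_castSucc]

lemma extend_size : (extend C out L).size = C.size + Fintype.card O + 1 := by
  classical
  unfold Circuit.size
  have h : Fin.last C.s ∉ C.free.map Fin.castSuccEmb := by
    intro h
    obtain ⟨j, _, he⟩ := Finset.mem_map.1 h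
    exact (Fin.castSucc_lt_last j).ne he
  show C.s + 1 + ∑ i ∈ insert (Fin.last C.s) (C.free.map Fin.castSuccEmb),
    (newGate C out L i).wires = _
  rw [Finset.sum_insert h, Finset.sum_map, newGate_last]
  have h2 : ∑ x ∈ C.free, (newGate C out L (Fin.castSuccEmb x)).wires =
      ∑ x ∈ C.free, (C.gate x).wires := by
    refine Finset.sum_congr rfl fun i _ => ?_
    show (newGate C out L i.castSucc).wires = _
    rw [newGate_castSucc]
    rfl
  rw [h2]
  show C.s + 1 + (Fintype.card O + _) = _
  ring

lemma extend_freedom : (extend C out L).freedom = (Fintype.card O + 1) * C.freedom := by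
  classical
  unfold Circuit.freedom
  have h : Fin.last C.s ∉ C.free.map Fin.castSuccEmb := by
    intro h
    obtain ⟨j, _, he⟩ := Finset.mem_map.1 h
    exact (Fin.castSucc_lt_last j).ne he
  show ∏ i ∈ insert (Fin.last C.s) (C.free.map Fin.castSuccEmb),
    ((newGate C out L i).wires + 1) = _
  rw [Finset.prod_insert h, Finset.prod_map, newGate_last]
  have h2 : ∏ x ∈ C.free, ((newGate C out L (Fin.castSuccEmb x)).wires + 1) =
      ∏ x ∈ C.free, ((C.gate x).wires + 1) := by
    refine Finset.prod_congr rfl fun i _ => ?_
    show (newGate C out L i.castSucc).wires + 1 = _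
    rw [newGate_castSucc]
    rfl
  rw [h2]
  rfl

lemma extend_uses {b m D : ℕ} (hC : C.Uses b m D) : (extend C out L).Uses b m D := by
  classical
  intro i
  refine Fin.lastCases ?_ (fun i => ?_) i
  · intro h
    exact absurd (Finset.mem_insert_self _ _) h
  · intro h
    have h1 : i ∉ C.free := by
      intro hi
      exact h (Finset.mem_insert_of_mem (Finset.mem_map.2 ⟨i, hi, rfl⟩))
    show ((newGate C out L i.castSucc).wires ≤ b ∧ Monotone (newGate C out L i.castSucc).op) ∨
      SpanGate m (newGate C out L i.castSucc).op ∨
      ProgramGate m D (1 / m) (newGate C out L i.castSucc).op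
    rw [newGate_castSucc]
    exact hC i h1

end ext

/-- From decision to reductions. -/
theorem Lower.reduces {P : Type} {Yes No : (P → Bool) → Prop} {b m D : ℕ} {S F : ℝ}
    (h : Lower Yes No b m D S F) {O : Type} [Fintype O] (C : Circuit P) (out : O → Output C)
    (L : Set (O → Bool)) (hC : C.Uses b m D) (hR : Reduces C out L Yes No)
    (hS : ((C.size + Fintype.card O + 1 : ℕ) : ℝ) ≤ S) :
    F < (((Fintype.card O + 1) * C.freedom : ℕ) : ℝ) := by
  classical
  have h1 := h (extend C out L) (extend_uses C out L hC) (Fin.last C.s) 1 ?_ ?_
    (by rw [extend_size]; exact hS)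
  · rwa [extend_freedom] at h1
  · intro x hx
    show (1 : ℝ) ≤ Fin.snoc (α := fun _ => ℝ) (C.val x)
      (if (fun o => (out o).bit x) ∈ L then 1 else 0) (Fin.last C.s)
    rw [Fin.snoc_last, if_pos ((hR x).1 hx)]
  · intro x hx
    show Fin.snoc (α := fun _ => ℝ) (C.val x)
      (if (fun o => (out o).bit x) ∈ L then 1 else 0) (Fin.last C.s) < (1 : ℝ)
    rw [Fin.snoc_last, if_neg ((hR x).2 hx)]
    norm_num

end Pool.Agent.T6.H87.M1
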