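import Pool.Agent.T6.H87.M1.Defs

/-!
# Lower bounds for reductions computed by circuits with real, span and program gates
-/

set_option autoImplicit false

namespace Pool.Agent.T6.H87.M1

open Finset Filter
open Pool.Agent.Y634 (SpanGate ProgramGate)
open Pool.Agent.W969.MC (grf)
open Pool.Agent.H547R3.Halt (Tr HaltsWithin)
open Pool.Agent.H679R2.M1 (Clause Sat)

/-- The unordered pairs of vertices. -/
abbrev Pairs (n : ℕ) : Type := {e : Finset (Fin n) // e.card = 2}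

theorem clique_lower (ε : ℝ) (hε : 0 < ε) (hε1 : ε < 1) (b k : ℕ) (hb : 2 ≤ b)
    (hk : 10 ^ 13 * b ≤ k) : ∃ n0 : ℕ, ∀ n : ℕ, n0 ≤ n → ∀ m D : ℕ,
      (m : ℝ) ≤ (n : ℝ) ^ (ε * k / 10 ^ 15) → (D : ℝ) ≤ (n : ℝ) ^ (ε / 63) →
      Lower (P := Pairs n) (fun x => ¬ (grf x).CliqueFree k) (fun x => (grf x).CliqueFree k) b m D
        ((n : ℝ) ^ (ε * k / (10 ^ 15 * b))) ((n : ℝ) ^ (2 - ε)) := by
  obtain ⟨n0, h⟩ := Pool.Agent.Y634.kclique_asymp ε hε hε1 b k hb hk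
  refine ⟨n0, fun n hn m D hm hD C hC o τ hY hN hS => ?_⟩
  exact h n hn m D C.s C.free (fun i => (C.gate i).wires) (fun i => (C.gate i).source)
    (fun i => (C.gate i).op) (fun i => (C.gate i).level) C.val hm hD C.earlier hC C.digital C.spec
    o τ (fun x => ⟨fun h1 h2 => absurd h1 (not_le.2 (hN x h2)), fun h1 => hY x h1⟩) hS

theorem halt_lower (ε : ℝ) (hε : 0 < ε) (hε1 : ε < 1) (b K : ℕ) (hb : 2 ≤ b)
    (hK : 10 ^ 13 * (b : ℝ) ≤ √(K : ℝ)) : ∃ n0 : ℕ, ∀ n : ℕ, n0 ≤ n → ∀ m D : ℕ,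
      (m : ℝ) ≤ (n : ℝ) ^ (ε * √(K : ℝ) / 10 ^ 13) → (D : ℝ) ≤ (n : ℝ) ^ (ε / 85) →
      Lower (P := Tr n) (fun M => HaltsWithin M K) (fun M => ∀ t, ¬ HaltsWithin M t) b m D
        ((n : ℝ) ^ (ε * √(K : ℝ) / (10 ^ 13 * b))) ((n : ℝ) ^ (4 - ε)) := by
  obtain ⟨n0, h⟩ := Pool.Agent.Y634.halt_asymp ε hε hε1 b K hb hK
  refine ⟨n0, fun n hn m D hm hD C hC o τ hY hN hS => ?_⟩
  exact h n hn m D C.s C.free (fun i => (C.gate i).wires) (fun i => (C.gate i).source)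
    (fun i => (C.gate i).op) (fun i => (C.gate i).level) C.val hm hD C.earlier hC C.digital C.spec
    o τ hY hN hS

/-- The answers `ev` to the questions whether `q` formulas are satisfiable, as a function of all
bits of the formulas: one bit for each possible clause. -/
def Questions {q v d : ℕ} (ev : (Fin q → Prop) → Prop) : Set (Fin q × Clause v d → Bool) :=
  {y | ev fun i => Sat fun c => y (i, c)}

lemma card_bits (q v d : ℕ) : Fintype.card (Fin q × Clause v d) ≤ q * (2 * v + 1) ^ d := by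
  rw [Fintype.card_prod, Fintype.card_fin]
  exact Nat.mul_le_mul_left _ (Pool.Agent.H679R2.M1.card_clause v d)

theorem m1_general {P : ℕ → Type} {Yes No : ℕ → ∀ n, (P n → Bool) → Prop} {b : ℕ}
    {e ε η : ℝ} (he : 0 ≤ e) (hε : 0 < ε) {σ μ : ℕ → ℝ} (hσ : Tendsto σ atTop atTop)
    (hμ : Tendsto μ atTop atTop)
    (h : ∀ᶠ k : ℕ in atTop, ∃ n0 : ℕ, ∀ n : ℕ, n0 ≤ n → ∀ m D : ℕ, (m : ℝ) ≤ (n : ℝ) ^ μ k →
      (D : ℝ) ≤ (n : ℝ) ^ η →
      Lower (Yes k n) (No k n) b m D ((n : ℝ) ^ σ k) ((n : ℝ) ^ (e - ε / 2)))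
    (f g : ℕ → ℕ) (c d : ℕ) :
    ∀ᶠ k : ℕ in atTop, ∀ᶠ n : ℕ in atTop, ∀ (q v m D : ℕ) (C : Circuit (P n))
      (out : Fin q × Clause v d → Output C) (ev : (Fin q → Prop) → Prop),
      v ≤ g k * (Nat.log 2 (f k * n ^ c) + 1) → m ≤ f k * n ^ c → (D : ℝ) ≤ (n : ℝ) ^ η →
      C.Uses b m D → C.size ≤ f k * n ^ c → Reduces C out (Questions ev) (Yes k n) (No k n) →
      (n : ℝ) ^ (e - ε) < (((q + 1) * C.freedom : ℕ) : ℝ) := by
  filter_upwards [h, hσ.eventually_ge_atTop ((c : ℝ) + e + ε + 3),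
    hμ.eventually_ge_atTop ((c : ℝ) + 1)] with k hk hσk hμk
  obtain ⟨n0, hk⟩ := hk
  filter_upwards [eventually_ge_atTop n0, eventually_ge_atTop (f k), eventually_ge_atTop 3,
    Pool.Agent.H679R2.M1.log_small (g k) (f k) c d (half_pos hε)] with n hn hnf hn3 hlog
  intro q v m D C out ev hv hm hD hC hS hR
  by_contra hcon
  push Not at hcon
  have hn3' : (3 : ℝ) ≤ n := by exact_mod_cast hn3
  have hn1 : (1 : ℝ) ≤ n := by linarith
  have hn0 : (0 : ℝ) < n := by linarith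
  have hfn : ((f k * n ^ c : ℕ) : ℝ) ≤ (n : ℝ) ^ ((c : ℝ) + 1) := by
    have h1 : ((f k : ℕ) : ℝ) ≤ n := by exact_mod_cast hnf
    have h2 : (n : ℝ) ^ ((c : ℝ) + 1) = n * (n : ℝ) ^ c := by
      rw [Real.rpow_add hn0, Real.rpow_one, Real.rpow_natCast, mul_comm]
    rw [h2]
    push_cast
    exact mul_le_mul_of_nonneg_right h1 (by positivity)
  have hF1 : 1 ≤ C.freedom := by
    unfold Circuit.freedom
    exact Finset.prod_pos fun i _ => Nat.succ_pos _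
  -- few questions
  have hq : ((q : ℝ) + 1) ≤ (n : ℝ) ^ e := by
    have h1 : (((q + 1) * 1 : ℕ) : ℝ) ≤ (((q + 1) * C.freedom : ℕ) : ℝ) := by
      exact_mod_cast Nat.mul_le_mul_left _ hF1
    have h2 : (n : ℝ) ^ (e - ε) ≤ (n : ℝ) ^ e :=
      Real.rpow_le_rpow_of_exponent_le hn1 (by linarith)
    push_cast at h1
    push_cast at hcon
    linarith
  have hcl : (((2 * v + 1) ^ d : ℕ) : ℝ) ≤ (n : ℝ) ^ (ε / 2) := by
    refine le_trans ?_ hlog
    exact_mod_cast Nat.pow_le_pow_left (by omega) d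
  have hcl1 : (1 : ℝ) ≤ (((2 * v + 1) ^ d : ℕ) : ℝ) := by
    exact_mod_cast Nat.one_le_pow d (2 * v + 1) (by omega)
  have hO : ((Fintype.card (Fin q × Clause v d) : ℕ) : ℝ) + 1 ≤
      ((q : ℝ) + 1) * (((2 * v + 1) ^ d : ℕ) : ℝ) := by
    have h1 : ((Fintype.card (Fin q × Clause v d) : ℕ) : ℝ) ≤
        (q : ℝ) * (((2 * v + 1) ^ d : ℕ) : ℝ) := by
      exact_mod_cast card_bits q v d
    nlinarith
  have hsum : (n : ℝ) ^ e * (n : ℝ) ^ (ε / 2) = (n : ℝ) ^ (e + ε / 2) := by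
    rw [← Real.rpow_add hn0]
  have hO2 : ((Fintype.card (Fin q × Clause v d) : ℕ) : ℝ) + 1 ≤ (n : ℝ) ^ (e + ε / 2) := by
    refine hO.trans ?_
    rw [← hsum]
    exact mul_le_mul hq hcl (by positivity) (by positivity)
  have hsize : ((C.size + Fintype.card (Fin q × Clause v d) + 1 : ℕ) : ℝ) ≤ (n : ℝ) ^ σ k := by
    have h1 : ((C.size : ℕ) : ℝ) ≤ (n : ℝ) ^ ((c : ℝ) + 1) := by
      refine le_trans ?_ hfn
      exact_mod_cast hS
    have h2 : (n : ℝ) ^ ((c : ℝ) + 1) ≤ (n : ℝ) ^ ((c : ℝ) + e + ε + 1) :=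
      Real.rpow_le_rpow_of_exponent_le hn1 (by linarith)
    have h3 : (n : ℝ) ^ (e + ε / 2) ≤ (n : ℝ) ^ ((c : ℝ) + e + ε + 1) :=
      Real.rpow_le_rpow_of_exponent_le hn1 (by
        have : (0 : ℝ) ≤ c := Nat.cast_nonneg _
        linarith)
    have h4 : 2 * (n : ℝ) ^ ((c : ℝ) + e + ε + 1) ≤ (n : ℝ) ^ ((c : ℝ) + e + ε + 2) := by
      have : (n : ℝ) ^ ((c : ℝ) + e + ε + 2) = n * (n : ℝ) ^ ((c : ℝ) + e + ε + 1) := by
        rw [show (c : ℝ) + e + ε + 2 = 1 + ((c : ℝ) + e + ε + 1) by ring, Real.rpow_add hn0,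
          Real.rpow_one]
      rw [this]
      exact mul_le_mul_of_nonneg_right (by linarith) (by positivity)
    have h5 : (n : ℝ) ^ ((c : ℝ) + e + ε + 2) ≤ (n : ℝ) ^ σ k :=
      Real.rpow_le_rpow_of_exponent_le hn1 (by linarith)
    push_cast
    push_cast at h1
    linarith
  have hmm : (m : ℝ) ≤ (n : ℝ) ^ μ k := by
    calc (m : ℝ) ≤ ((f k * n ^ c : ℕ) : ℝ) := by exact_mod_cast hm
      _ ≤ (n : ℝ) ^ ((c : ℝ) + 1) := hfn
      _ ≤ (n : ℝ) ^ μ k := Real.rpow_le_rpow_of_exponent_le hn1 hμk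
  have hmain := (hk n hn m D hmm hD).reduces C out (Questions ev) hC hR hsize
  have h6 : (((Fintype.card (Fin q × Clause v d) + 1) * C.freedom : ℕ) : ℝ) ≤
      (n : ℝ) ^ (e - ε / 2) := by
    have h7 : (((Fintype.card (Fin q × Clause v d) + 1) * C.freedom : ℕ) : ℝ) ≤
        (((q : ℝ) + 1) * (((2 * v + 1) ^ d : ℕ) : ℝ)) * (C.freedom : ℝ) := by
      push_cast
      push_cast at hO
      exact mul_le_mul_of_nonneg_right hO (by positivity)
    refine h7.trans ?_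
    have h8 : (((q : ℝ) + 1) * (((2 * v + 1) ^ d : ℕ) : ℝ)) * (C.freedom : ℝ) =
        (((q : ℝ) + 1) * (C.freedom : ℝ)) * (((2 * v + 1) ^ d : ℕ) : ℝ) := by ring
    rw [h8]
    have h9 : (n : ℝ) ^ (e - ε / 2) = (n : ℝ) ^ (e - ε) * (n : ℝ) ^ (ε / 2) := by
      rw [← Real.rpow_add hn0]
      congr 1
      ring
    rw [h9]
    push_cast at hcon
    exact mul_le_mul hcon hcl (by positivity) (by positivity)
  linarith

end Pool.Agent.T6.H87.M1
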